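import Pool.Agent.Helper96.CT.Stmts

/-!
# Sheet CT, row SD: connected graphs of maximum degree at most 2
-/

set_option autoImplicit false

namespace Pool.Agent.Helper87.CT

open SimpleGraph Pool.Agent.Helper96.CT

theorem three {V : Type} [DecidableEq V] (F : SimpleGraph V) (hd : DL F 2) (v a b c : V)
    (hab : a ≠ b) (hac : a ≠ c) (hbc : b ≠ c) (ha : F.Adj v a) (hb : F.Adj v b)
    (hc : F.Adj v c) : False := by
  have h := hd v {a, b, c} (by
    intro x hx
    simp only [Finset.mem_insert, Finset.mem_singleton] at hx
    rcases hx with rfl | rfl | rfl
    · exact ha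
    · exact hb
    · exact hc)
  have h3 : ({a, b, c} : Finset V).card = 3 := Finset.card_eq_three.2 ⟨a, b, c, hab, hac, hbc, rfl⟩
  omega

theorem st_SD : ST_SD := by
  classical
  intro V _ F k hc hd ha
  let Pr : ℕ → Prop := fun q => ∃ p : ℕ → V, (∀ i < q, ∀ j < q, p i = p j → i = j) ∧
    ∀ i, i + 1 < q → F.Adj (p i) (p (i + 1))
  have hbound : ∀ q, Pr q → q ≤ Fintype.card V := by
    rintro q ⟨p, hp, -⟩
    have h : (Finset.range q).card ≤ (Finset.univ : Finset V).card := by
      apply Finset.card_le_card_of_injOn p (fun _ _ => Finset.mem_univ _)
      intro i hi j hj h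
      exact hp i (by simpa using hi) j (by simpa using hj) h
    simpa using h
  obtain ⟨v0⟩ := hc.nonempty
  have h1 : Pr 1 := ⟨fun _ => v0, by intro i hi j hj _; omega, by intro i hi; omega⟩
  obtain ⟨q, hq, hmax⟩ : ∃ q, Pr q ∧ ∀ r, Pr r → r ≤ q :=
    ⟨Nat.findGreatest Pr (Fintype.card V), Nat.findGreatest_spec (hbound 1 h1) h1,
      fun r hr => Nat.le_findGreatest (hbound r hr) hr⟩
  have hq1 : 1 ≤ q := hmax 1 h1
  obtain ⟨p, hinj, hadj⟩ := hq
  have hcov : ∀ w : V, ∃ i < q, p i = w := by
    by_contra hcon
    push Not at hcon
    obtain ⟨w, hw⟩ := hcon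
    obtain ⟨W⟩ := hc.preconnected (p 0) w
    obtain ⟨d, -, hd1, hd2⟩ := W.exists_boundary_dart {x | ∃ i < q, p i = x} ⟨0, hq1, rfl⟩
      (by rintro ⟨i, hi, h⟩; exact hw i hi h)
    obtain ⟨i, hi, hix⟩ := hd1
    have hA : F.Adj (p i) d.snd := by rw [hix]; exact d.adj
    have hy : ∀ j < q, p j ≠ d.snd := fun j hj h => hd2 ⟨j, hj, h⟩
    generalize d.snd = y at hA hy
    rcases Nat.eq_zero_or_pos i with h0 | hpos
    · have hP : Pr (q + 1) := by
        refine ⟨fun j => if j = 0 then y else p (j - 1), ?_, ?_⟩
        · intro a ha b hb hab
          dsimp only at hab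
          split_ifs at hab with g1 g2 g2
          · omega
          · exact absurd hab.symm (hy _ (by omega))
          · exact absurd hab (hy _ (by omega))
          · have := hinj _ (by omega) _ (by omega) hab
            omega
        · intro a ha
          dsimp only
          rw [if_neg (Nat.succ_ne_zero a)]
          split_ifs with g1
          · subst g1
            rw [h0] at hA
            exact hA.symm
          · have h5 := hadj (a - 1) (by omega)
            rw [show a - 1 + 1 = a by omega] at h5
            exact h5
      have := hmax _ hP
      omega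
    · by_cases hlast : i + 1 = q
      · have hP : Pr (q + 1) := by
          refine ⟨fun j => if j = q then y else p j, ?_, ?_⟩
          · intro a ha b hb hab
            dsimp only at hab
            split_ifs at hab with g1 g2 g2
            · omega
            · exact absurd hab.symm (hy _ (by omega))
            · exact absurd hab (hy _ (by omega))
            · exact hinj _ (by omega) _ (by omega) hab
          · intro a ha
            dsimp only
            rw [if_neg (by omega : ¬ a = q)]
            split_ifs with g1
            · rw [show a = i by omega]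
              exact hA
            · exact hadj a (by omega)
        have := hmax _ hP
        omega
      · refine three F hd (p i) (p (i - 1)) (p (i + 1)) y ?_ ?_ ?_ ?_ ?_ hA
        · intro h
          have := hinj _ (by omega) _ (by omega) h
          omega
        · exact hy _ (by omega)
        · exact hy _ (by omega)
        · have h5 := hadj (i - 1) (by omega)
          rw [show i - 1 + 1 = i by omega] at h5
          exact h5.symm
        · exact hadj i (by omega)
  have hcard : Fintype.card V ≤ q := by
    have h : (Finset.univ : Finset V) ⊆ (Finset.range q).image p := by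
      intro w _
      obtain ⟨i, hi, h⟩ := hcov w
      exact Finset.mem_image.2 ⟨i, Finset.mem_range.2 hi, h⟩
    have h2 := (Finset.card_le_card h).trans Finset.card_image_le
    simpa using h2
  have hI := ha ((Finset.range (q / 2)).image (fun i => p (2 * i))) (by
    have key : ∀ i j, i < j → j < q / 2 → ¬ F.Adj (p (2 * j)) (p (2 * i)) := by
      intro i j hij hj hA
      refine three F hd (p (2 * j)) (p (2 * j - 1)) (p (2 * j + 1)) (p (2 * i)) ?_ ?_ ?_ ?_ ?_ hA
      · intro h
        have := hinj _ (by omega) _ (by omega) h
        omega
      · intro h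
        have := hinj _ (by omega) _ (by omega) h
        omega
      · intro h
        have := hinj _ (by omega) _ (by omega) h
        omega
      · have h5 := hadj (2 * j - 1) (by omega)
        rw [show 2 * j - 1 + 1 = 2 * j by omega] at h5
        exact h5.symm
      · exact hadj (2 * j) (by omega)
    intro x hx y hy hxy hA
    obtain ⟨i, hi, rfl⟩ := Finset.mem_image.1 hx
    obtain ⟨j, hj, rfl⟩ := Finset.mem_image.1 hy
    rw [Finset.mem_range] at hi hj
    rcases lt_trichotomy i j with h | h | h
    · exact key i j h hj hA.symm
    · exact hxy (by rw [h])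
    · exact key j i h hi hA)
  rw [Finset.card_image_of_injOn, Finset.card_range] at hI
  · omega
  · intro i hi j hj h
    have hi' : i < q / 2 := by simpa using hi
    have hj' : j < q / 2 := by simpa using hj
    have := hinj (2 * i) (by omega) (2 * j) (by omega) h
    omega

end Pool.Agent.Helper87.CT
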